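import Pool.Agent.H32.RQ.Targets

/-!
# Pairs of quadratic forms (`MP_63b6b1_nt`), row STR: the structure lemma
-/

set_option autoImplicit false

open Finset Pool.Agent.H32.RQ

namespace Pool.Agent.H75.RQ

/-- the linear algebra -/
theorem str_alg {s : ℕ} (x y : Fin s → ℚ) (m : Fin s → Fin s → ℚ) (hs : ∀ i l, m i l = m l i)
    (h2 : ∀ i j a e, y a * (x i * m j e - x j * m i e) = y e * (x i * m j a - x j * m i a))
    (h3 : ∀ i j a e, x a * (y i * m j e - y j * m i e) = x e * (y i * m j a - y j * m i a))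
    (p q : Fin s) (hM : x p * y q - x q * y p ≠ 0) :
    ∃ α β : ℚ, ∀ i l, m i l = α * x i * x l + β * y i * y l := by
  have hy : ∃ a, y a ≠ 0 := by
    by_contra hne
    push Not at hne
    exact hM (by rw [hne p, hne q]; ring)
  have hx : ∃ a, x a ≠ 0 := by
    by_contra hne
    push Not at hne
    exact hM (by rw [hne p, hne q]; ring)
  obtain ⟨a0, ha0⟩ := hy
  obtain ⟨b0, hb0⟩ := hx
  set lam : ℚ := (x p * m q a0 - x q * m p a0) / y a0 with hlam
  set mu : ℚ := (y p * m q b0 - y q * m p b0) / x b0 with hmu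
  have e1 : ∀ e, x p * m q e - x q * m p e = lam * y e := by
    intro e
    rw [hlam, div_mul_eq_mul_div, eq_div_iff ha0]
    linarith [h2 p q a0 e]
  have e2 : ∀ e, y p * m q e - y q * m p e = mu * x e := by
    intro e
    rw [hmu, div_mul_eq_mul_div, eq_div_iff hb0]
    linarith [h3 p q b0 e]
  set M : ℚ := x p * y q - x q * y p with hMd
  have e3 : ∀ e, M * m p e = lam * y p * y e - mu * x p * x e := by
    intro e
    rw [hMd]
    linear_combination (y p) * e1 e - (x p) * e2 e
  have e4 : ∀ e, M * m q e = lam * y q * y e - mu * x q * x e := by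
    intro e
    rw [hMd]
    linear_combination (y q) * e1 e - (x q) * e2 e
  refine ⟨-mu / M, lam / M, ?_⟩
  have f3 : ∀ e, m p e = -mu / M * x p * x e + lam / M * y p * y e := by
    intro e
    field_simp
    linarith [e3 e]
  have f4 : ∀ e, m q e = -mu / M * x q * x e + lam / M * y q * y e := by
    intro e
    field_simp
    linarith [e4 e]
  generalize -mu / M = α at f3 f4
  generalize lam / M = β at f3 f4
  intro j e
  -- the difference
  set m' : Fin s → Fin s → ℚ := fun j e => m j e - (α * x j * x e + β * y j * y e) with hm'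
  have g1 : ∀ a e, y a * (x p * m' j e) = y e * (x p * m' j a) := by
    intro a e
    simp only [hm']
    linear_combination h2 p j a e + y a * x j * f3 e - y e * x j * f3 a
  have g2 : ∀ a e, y a * (x q * m' j e) = y e * (x q * m' j a) := by
    intro a e
    simp only [hm']
    linear_combination h2 q j a e + y a * x j * f4 e - y e * x j * f4 a
  have g3 : ∀ a e, y a * m' j e = y e * m' j a := by
    intro a e
    by_cases hp : x p = 0
    · have hq : x q ≠ 0 := by
        intro hq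
        exact hM (by rw [hMd, hp, hq]; ring)
      have := g2 a e
      have h5 : x q * (y a * m' j e) = x q * (y e * m' j a) := by linarith
      exact mul_left_cancel₀ hq h5
    · have := g1 a e
      have h5 : x p * (y a * m' j e) = x p * (y e * m' j a) := by linarith
      exact mul_left_cancel₀ hp h5
  have zp : m' j p = 0 := by
    simp only [hm']
    rw [hs j p, f3 j]
    ring
  have zq : m' j q = 0 := by
    simp only [hm']
    rw [hs j q, f4 j]
    ring
  have hz : m' j e = 0 := by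
    by_cases hp : y p = 0
    · have hq : y q ≠ 0 := by
        intro hq
        exact hM (by rw [hMd, hp, hq]; ring)
      have h5 := g3 q e
      rw [zq, mul_zero] at h5
      exact (mul_eq_zero.1 h5).resolve_left hq
    · have h5 := g3 p e
      rw [zp, mul_zero] at h5
      exact (mul_eq_zero.1 h5).resolve_left hp
  have : m j e - (α * x j * x e + β * y j * y e) = 0 := hz
  linarith

/-- the matrix maps small vectors orthogonal to `x` to the line of `y` -/
theorem str_one {s b c : ℕ} (x y : Fin s → ℤ) (H θ φ : ℝ) (m : Fin s → Fin s → ℤ)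
    (hb : 1 ≤ b) (gy : Gd b c y) (hH : 0 < H) (hc : 18 * (b : ℝ) ^ 4 ≤ c * H)
    (hm : ∀ i l, |θ * x i * x l + φ * y i * y l - m i l| < 1 / H)
    (l : Fin s → ℤ) (hl : (Finset.univ.filter fun i => l i ≠ 0).card ≤ 3)
    (hlb : ∀ i, |l i| * (b : ℤ) ≤ 3 * ((b ^ 4 : ℕ) : ℤ)) (h0 : ∑ i, l i * x i = 0) (a e : Fin s) :
    y a * (∑ i, l i * m i e) - y e * (∑ i, l i * m i a) = 0 := by
  have hbR : (0 : ℝ) < b := by exact_mod_cast hb
  have hbZ : (0 : ℤ) < b := by exact_mod_cast hb
  -- the size of `l`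
  have hl1 : ∀ i, |(l i : ℝ)| ≤ 3 * (b : ℝ) ^ 3 := by
    intro i
    have h1 : |l i| * (b : ℤ) ≤ (3 * (b : ℤ) ^ 3) * b := by
      refine (hlb i).trans (le_of_eq ?_)
      push_cast
      ring
    have h2 : |l i| ≤ 3 * (b : ℤ) ^ 3 := le_of_mul_le_mul_right h1 hbZ
    have h3 : ((|l i| : ℤ) : ℝ) ≤ ((3 * (b : ℤ) ^ 3 : ℤ) : ℝ) := by exact_mod_cast h2
    push_cast at h3
    exact h3
  have hl2 : ∑ i, |(l i : ℝ)| ≤ 9 * (b : ℝ) ^ 3 := by
    have h1 : ∑ i, |(l i : ℝ)| = ∑ i ∈ Finset.univ.filter (fun i => l i ≠ 0), |(l i : ℝ)| := by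
      symm
      refine Finset.sum_subset (Finset.filter_subset _ _) fun i _ hi => ?_
      have : l i = 0 := by
        by_contra hne
        exact hi (Finset.mem_filter.2 ⟨Finset.mem_univ i, hne⟩)
      rw [this]
      simp
    rw [h1]
    calc ∑ i ∈ Finset.univ.filter (fun i => l i ≠ 0), |(l i : ℝ)|
        ≤ ∑ _i ∈ Finset.univ.filter (fun i => l i ≠ 0), 3 * (b : ℝ) ^ 3 :=
          Finset.sum_le_sum fun i _ => hl1 i
      _ = ((Finset.univ.filter fun i => l i ≠ 0).card : ℝ) * (3 * (b : ℝ) ^ 3) := by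
          rw [Finset.sum_const, nsmul_eq_mul]
      _ ≤ 3 * (3 * (b : ℝ) ^ 3) := by
          refine mul_le_mul_of_nonneg_right ?_ (by positivity)
          exact_mod_cast hl
      _ = 9 * (b : ℝ) ^ 3 := by ring
  -- the errors
  set E : Fin s → Fin s → ℝ := fun i l => θ * x i * x l + φ * y i * y l - m i l with hE
  have h0R : ∑ i, (l i : ℝ) * x i = 0 := by exact_mod_cast h0
  have hz : ∀ a, ((∑ i, l i * m i a : ℤ) : ℝ) = φ * (∑ i, (l i : ℝ) * y i) * y a -
      ∑ i, (l i : ℝ) * E i a := by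
    intro a
    have h1 : ∑ i, (l i : ℝ) * E i a = θ * x a * (∑ i, (l i : ℝ) * x i) +
        φ * (∑ i, (l i : ℝ) * y i) * y a - ∑ i, (l i : ℝ) * m i a := by
      rw [Finset.mul_sum, Finset.mul_sum, Finset.sum_mul, ← Finset.sum_add_distrib,
        ← Finset.sum_sub_distrib]
      refine Finset.sum_congr rfl fun i _ => ?_
      simp only [hE]
      ring
    rw [h1, h0R]
    push_cast
    ring
  have hEb : ∀ a, |∑ i, (l i : ℝ) * E i a| ≤ 9 * (b : ℝ) ^ 3 * (1 / H) := by
    intro a
    calc |∑ i, (l i : ℝ) * E i a| ≤ ∑ i, |(l i : ℝ) * E i a| := Finset.abs_sum_le_sum_abs _ _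
      _ ≤ ∑ i, |(l i : ℝ)| * (1 / H) := by
          refine Finset.sum_le_sum fun i _ => ?_
          rw [abs_mul]
          exact mul_le_mul_of_nonneg_left (hm i a).le (abs_nonneg _)
      _ = (∑ i, |(l i : ℝ)|) * (1 / H) := by rw [Finset.sum_mul]
      _ ≤ 9 * (b : ℝ) ^ 3 * (1 / H) := mul_le_mul_of_nonneg_right hl2 (by positivity)
  have hyb : ∀ a, |(y a : ℝ)| ≤ (b : ℝ) ^ 4 := by
    intro a
    have h1 := gy.bd a
    have h2 : ((|y a| : ℤ) : ℝ) ≤ (((b : ℤ) ^ 4 : ℤ) : ℝ) := by exact_mod_cast h1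
    push_cast at h2
    exact h2
  have key : ∀ a e, |mnr y (fun j => ∑ i, l i * m i j) a e| ≤ ((c * b ^ 3 : ℕ) : ℤ) := by
    intro a e
    have h1 : ((mnr y (fun j => ∑ i, l i * m i j) a e : ℤ) : ℝ) =
        y e * (∑ i, (l i : ℝ) * E i a) - y a * (∑ i, (l i : ℝ) * E i e) := by
      unfold mnr
      rw [Int.cast_sub, Int.cast_mul, Int.cast_mul, hz e, hz a]
      ring
    have h2 : |((mnr y (fun j => ∑ i, l i * m i j) a e : ℤ) : ℝ)| ≤ (c : ℝ) * (b : ℝ) ^ 3 := by
      rw [h1]
      have h3 : |(y e : ℝ) * (∑ i, (l i : ℝ) * E i a)| ≤ (b : ℝ) ^ 4 * (9 * (b : ℝ) ^ 3 * (1 / H)) := by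
        rw [abs_mul]
        exact mul_le_mul (hyb e) (hEb a) (abs_nonneg _) (by positivity)
      have h4 : |(y a : ℝ) * (∑ i, (l i : ℝ) * E i e)| ≤ (b : ℝ) ^ 4 * (9 * (b : ℝ) ^ 3 * (1 / H)) := by
        rw [abs_mul]
        exact mul_le_mul (hyb a) (hEb e) (abs_nonneg _) (by positivity)
      have h5 := abs_sub (y e * (∑ i, (l i : ℝ) * E i a)) (y a * (∑ i, (l i : ℝ) * E i e))
      have h6 : (b : ℝ) ^ 4 * (9 * (b : ℝ) ^ 3 * (1 / H)) + (b : ℝ) ^ 4 * (9 * (b : ℝ) ^ 3 * (1 / H)) ≤
          (c : ℝ) * (b : ℝ) ^ 3 := by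
        have h7 : (b : ℝ) ^ 4 * (9 * (b : ℝ) ^ 3 * (1 / H)) +
            (b : ℝ) ^ 4 * (9 * (b : ℝ) ^ 3 * (1 / H)) = (18 * (b : ℝ) ^ 4) * (b : ℝ) ^ 3 / H := by
          field_simp
          ring
        rw [h7, div_le_iff₀ hH]
        have h8 := mul_le_mul_of_nonneg_right hc (show (0 : ℝ) ≤ (b : ℝ) ^ 3 by positivity)
        linarith
      linarith
    have h3 : ((|mnr y (fun j => ∑ i, l i * m i j) a e| : ℤ) : ℝ) ≤ (((c * b ^ 3 : ℕ) : ℤ) : ℝ) := by
      rw [Int.cast_abs]
      push_cast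
      exact h2
    exact_mod_cast h3
  have := gy.iso (fun j => ∑ i, l i * m i j) key a e
  exact this

/-- the relations between the minors -/
theorem str_two (hSPN : T_SPN) {s b c : ℕ} (x y : Fin s → ℤ) (H θ φ : ℝ) (m : Fin s → Fin s → ℤ)
    (hs3 : 3 ≤ s) (hb : 1 ≤ b) (gx : Gd b c x) (gy : Gd b c y) (hH : 0 < H)
    (hc : 18 * (b : ℝ) ^ 4 ≤ c * H)
    (hm : ∀ i l, |θ * x i * x l + φ * y i * y l - m i l| < 1 / H) (i j a e : Fin s) :
    y a * (x i * m j e - x j * m i e) = y e * (x i * m j a - x j * m i a) := by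
  set ph : (Fin s → ℤ) →+ ℤ :=
    { toFun := fun l => y a * (∑ i, l i * m i e) - y e * (∑ i, l i * m i a)
      map_zero' := by simp
      map_add' := by
        intro l l'
        simp only [Pi.add_apply, add_mul, Finset.sum_add_distrib]
        ring } with hph
  have h1 := hSPN s (b ^ 4) b x hs3 hb (fun i => by
    have := gx.bd i
    push_cast
    exact this) gx.sup ph (by
    intro l hl hlb h0
    exact str_one x y H θ φ m hb gy hH hc hm l hl hlb h0 a e) i j
  have h2 : ∀ (u : Fin s → ℤ), ∑ t, (Pi.single j (x i) - Pi.single i (x j) : Fin s → ℤ) t * u t =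
      x i * u j - x j * u i := by
    intro u
    simp only [Pi.sub_apply, sub_mul, Finset.sum_sub_distrib]
    congr 1
    · rw [Finset.sum_eq_single j]
      · simp
      · intro t _ ht
        rw [Pi.single_eq_of_ne ht, zero_mul]
      · intro h
        exact absurd (Finset.mem_univ j) h
    · rw [Finset.sum_eq_single i]
      · simp
      · intro t _ ht
        rw [Pi.single_eq_of_ne ht, zero_mul]
      · intro h
        exact absurd (Finset.mem_univ i) h
  have h3 : y a * (∑ t, (Pi.single j (x i) - Pi.single i (x j) : Fin s → ℤ) t * m t e) -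
      y e * (∑ t, (Pi.single j (x i) - Pi.single i (x j) : Fin s → ℤ) t * m t a) = 0 := h1
  rw [h2 (fun t => m t e), h2 (fun t => m t a)] at h3
  linarith

/-- **STR.** -/
theorem pf_STR (hSPN : T_SPN) : T_STR := by
  intro s b c x y H θ φ m hs3 hb gx gy hdm hH hc hsym hm
  have h2 := str_two hSPN x y H θ φ m hs3 hb gx gy hH hc hm
  have hm' : ∀ i l, |φ * y i * y l + θ * x i * x l - m i l| < 1 / H := by
    intro i l
    have := hm i l
    rw [add_comm] at this
    exact this
  have h3 := str_two hSPN y x H φ θ m hs3 hb gy gx hH hc hm'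
  -- a minor which is not zero
  have hpq : ∃ p q, mnr x y p q ≠ 0 := by
    by_contra hne
    push Not at hne
    refine hdm ?_
    unfold dm
    refine le_antisymm (Finset.sup_le fun p _ => ?_) (Nat.zero_le _)
    rw [hne p.1 p.2]
    simp
  obtain ⟨p, q, hpq⟩ := hpq
  refine str_alg (fun i => (x i : ℚ)) (fun i => (y i : ℚ)) (fun i l => (m i l : ℚ))
    (fun i l => by rw [hsym i l]) (fun i j a e => ?_) (fun i j a e => ?_) p q ?_
  · exact_mod_cast h2 i j a e
  · exact_mod_cast h3 i j a e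
  · intro h
    refine hpq ?_
    have : ((mnr x y p q : ℤ) : ℚ) = 0 := by
      unfold mnr
      push_cast
      linarith
    exact_mod_cast this

end Pool.Agent.H75.RQ
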