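import Pool.Agent.H32.RQ.Targets

/-!
# Pairs of quadratic forms (`MP_63b6b1_nt`), row PXY: the frequencies of the correlation
-/

set_option autoImplicit false

open Finset Pool.Agent.H32.RQ

namespace Pool.Agent.H75.RQ

/-- the structure of a frequency -/
def Frq {s : ℕ} (Q J : ℕ) (x y : Fin s → ℤ) (z : ZMod Q × ZMod Q) (α β : ℚ) : Prop :=
  (∀ p : Mon s, |(z.1.val : ℝ) * ((nu x p : ℤ) : ℝ) + (z.2.val : ℝ) * ((nu y p : ℤ) : ℝ) -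
    Q * ((α : ℝ) * ((nu x p : ℤ) : ℝ) + (β : ℝ) * ((nu y p : ℤ) : ℝ))| < J) ∧
  (∀ i l, ∃ m : ℤ, (m : ℚ) = α * x i * x l + β * y i * y l) ∧
  (∃ a : ℤ, (gm x y : ℚ) * α = a) ∧ ∃ a : ℤ, (gm x y : ℚ) * β = a

theorem frq_int {s : ℕ} (Q J : ℕ) [NeZero Q] (x y : Fin s → ℤ) (z : ZMod Q × ZMod Q)
    (hz : z ∈ zs Q J x y) (p : Mon s) :
    ∃ m : ℤ, |(z.1.val : ℤ) * nu x p + (z.2.val : ℤ) * nu y p - Q * m| < (J : ℤ) := by
  have h1 := (Finset.mem_filter.1 hz).2 p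
  set e : ℤ := (z.1 * ((nu x p : ℤ) : ZMod Q) + z.2 * ((nu y p : ℤ) : ZMod Q)).valMinAbs with he
  have h2 : ((e : ℤ) : ZMod Q) = z.1 * ((nu x p : ℤ) : ZMod Q) + z.2 * ((nu y p : ℤ) : ZMod Q) :=
    ZMod.coe_valMinAbs _
  have h3 : (((z.1.val : ℤ) * nu x p + (z.2.val : ℤ) * nu y p - e : ℤ) : ZMod Q) = 0 := by
    push_cast
    rw [h2, ZMod.natCast_zmod_val, ZMod.natCast_zmod_val]
    ring
  obtain ⟨m, hm⟩ := (ZMod.intCast_zmod_eq_zero_iff_dvd _ Q).1 h3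
  refine ⟨m, ?_⟩
  rw [← hm, sub_sub_cancel]
  exact h1

theorem gm_pos {s : ℕ} (x y : Fin s → ℤ) (h : dm x y ≠ 0) : 1 ≤ gm x y := by
  rw [Nat.one_le_iff_ne_zero]
  intro h0
  refine h ?_
  unfold dm
  refine le_antisymm (Finset.sup_le fun p hp => ?_) (Nat.zero_le _)
  unfold gm at h0
  rw [Finset.gcd_eq_zero_iff] at h0
  exact (h0 p hp).le

theorem frq_ex (hSTR : T_STR) (hCLS : T_CLS) {s b c A J Q : ℕ} [NeZero Q] (x y : Fin s → ℤ)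
    (hs : 3 ≤ s) (hb : 1 ≤ b) (hA : 1 ≤ A) (hcA : 9 * b ^ 4 ≤ c * A) (hQ : Q = 2 * A * J)
    (gx : Gd b c x) (gy : Gd b c y) (hd : dm x y ≠ 0) (z : ZMod Q × ZMod Q)
    (hz : z ∈ zs Q J x y) : ∃ α β : ℚ, Frq Q J x y z α β := by
  have hAR : (0 : ℝ) < A := by exact_mod_cast hA
  have hQ0 : 0 < Q := Nat.pos_of_ne_zero (NeZero.ne Q)
  have hQR : (0 : ℝ) < Q := by exact_mod_cast hQ0
  have hQe : (Q : ℝ) = 2 * A * J := by rw [hQ]; push_cast; ring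
  choose M hM using fun p : Mon s => frq_int Q J x y z hz p
  have hnu : ∀ (u : Fin s → ℤ) (i l : Fin s),
      nu u (⟨(min i l, max i l), min_le_max⟩ : Mon s) = u i * u l := by
    intro u i l
    unfold nu
    rcases le_total i l with h | h
    · simp only [min_eq_left h, max_eq_right h]
    · simp only [min_eq_right h, max_eq_left h]
      ring
  have hMR : ∀ p : Mon s, |(z.1.val : ℝ) * ((nu x p : ℤ) : ℝ) + (z.2.val : ℝ) * ((nu y p : ℤ) : ℝ) -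
      Q * (M p : ℝ)| < J := by
    intro p
    have h1 : ((|(z.1.val : ℤ) * nu x p + (z.2.val : ℤ) * nu y p - Q * M p| : ℤ) : ℝ) <
        (((J : ℤ)) : ℝ) := by exact_mod_cast hM p
    push_cast at h1
    exact h1
  obtain ⟨α, β, hab⟩ := hSTR s b c x y (2 * A) (z.1.val / Q) (z.2.val / Q)
    (fun i l => M ⟨(min i l, max i l), min_le_max⟩) hs hb gx gy hd (by positivity) (by
      have : ((9 * b ^ 4 : ℕ) : ℝ) ≤ ((c * A : ℕ) : ℝ) := by exact_mod_cast hcA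
      push_cast at this
      linarith) (fun i l => by simp only [min_comm i l, max_comm i l]) (by
      intro i l
      have h1 := hMR ⟨(min i l, max i l), min_le_max⟩
      rw [hnu x i l, hnu y i l] at h1
      have h2 : (z.1.val : ℝ) / Q * x i * x l + (z.2.val : ℝ) / Q * y i * y l -
          (M ⟨(min i l, max i l), min_le_max⟩ : ℝ) =
          ((z.1.val : ℝ) * ((x i * x l : ℤ) : ℝ) + (z.2.val : ℝ) * ((y i * y l : ℤ) : ℝ) -
          Q * (M ⟨(min i l, max i l), min_le_max⟩ : ℝ)) / Q := by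
        field_simp
        push_cast
        ring
      rw [h2, abs_div, abs_of_pos hQR, div_lt_iff₀ hQR]
      refine h1.trans_le (le_of_eq ?_)
      rw [hQe]
      field_simp)
  have hint : ∀ i l, ∃ m : ℤ, (m : ℚ) = α * x i * x l + β * y i * y l :=
    fun i l => ⟨_, hab i l⟩
  obtain ⟨h3, h4⟩ := hCLS s x y α β gx.prm gy.prm hd hint
  refine ⟨α, β, ?_, hint, h3, h4⟩
  intro p
  obtain ⟨⟨i, l⟩, hil⟩ := p
  have h5 := hab i l
  have hil' : i ≤ l := hil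
  simp only [min_eq_left hil', max_eq_right hil'] at h5
  have h6 := hMR ⟨(i, l), hil⟩
  have h7 : ((M ⟨(i, l), hil⟩ : ℤ) : ℝ) = (α : ℝ) * ((nu x (⟨(i, l), hil⟩ : Mon s) : ℤ) : ℝ) +
      (β : ℝ) * ((nu y (⟨(i, l), hil⟩ : Mon s) : ℤ) : ℝ) := by
    have h8 : ((M ⟨(i, l), hil⟩ : ℚ) : ℝ) = ((α * x i * x l + β * y i * y l : ℚ) : ℝ) := by
      rw [h5]
    push_cast at h8
    rw [h8]
    unfold nu
    push_cast
    ring
  rw [h7] at h6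
  exact h6

theorem nu_bd {s b c : ℕ} (y : Fin s → ℤ) (gy : Gd b c y) (p : Mon s) :
    |((nu y p : ℤ) : ℝ)| ≤ (b : ℝ) ^ 8 := by
  have h1 : ∀ i, |(y i : ℝ)| ≤ (b : ℝ) ^ 4 := by
    intro i
    have h2 : ((|y i| : ℤ) : ℝ) ≤ (((b : ℤ) ^ 4 : ℤ) : ℝ) := by exact_mod_cast gy.bd i
    push_cast at h2
    exact h2
  unfold nu
  push_cast
  rw [abs_mul]
  calc _ ≤ (b : ℝ) ^ 4 * (b : ℝ) ^ 4 := mul_le_mul (h1 _) (h1 _) (abs_nonneg _) (by positivity)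
    _ = (b : ℝ) ^ 8 := by ring

/-- Cramer's rule -/
theorem cramer (j k Q J a b a' b' α β B : ℝ) (h1 : |j * a + k * b - Q * (α * a + β * b)| ≤ J)
    (h2 : |j * a' + k * b' - Q * (α * a' + β * b')| ≤ J) (hb : |b| ≤ B) (hb' : |b'| ≤ B)
    (hJ : 0 ≤ J) : |j - Q * α| * |a * b' - a' * b| ≤ 2 * J * B := by
  rw [← abs_mul]
  have e : (j - Q * α) * (a * b' - a' * b) = (j * a + k * b - Q * (α * a + β * b)) * b' -
      (j * a' + k * b' - Q * (α * a' + β * b')) * b := by ring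
  rw [e]
  have h3 : |(j * a + k * b - Q * (α * a + β * b)) * b'| ≤ J * B := by
    rw [abs_mul]
    exact mul_le_mul h1 hb' (abs_nonneg _) hJ
  have h4 : |(j * a' + k * b' - Q * (α * a' + β * b')) * b| ≤ J * B := by
    rw [abs_mul]
    exact mul_le_mul h2 hb (abs_nonneg _) hJ
  have h5 := abs_sub ((j * a + k * b - Q * (α * a + β * b)) * b')
    ((j * a' + k * b' - Q * (α * a' + β * b')) * b)
  linarith

theorem pxy_two {s b c J Q W : ℕ} [NeZero Q] (x y : Fin s → ℤ) (p q : Mon s) (Δ : ℕ)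
    (hW : 1 ≤ W) (hWQ : W ∣ Q) (gy : Gd b c y)
    (hd : dm x y ≠ 0) (hΔ : Δ = (nu x p * nu y q - nu x q * nu y p).natAbs) (hg : gm x y ∣ W)
    (z : ZMod Q × ZMod Q) (α β : ℚ) (hf : Frq Q J x y z α β) : ∃ a n : ℤ,
      z.1 = ((n + a * ((Q / W : ℕ) : ℤ) : ℤ) : ZMod Q) ∧ |n| * Δ ≤ 2 * J * (b : ℤ) ^ 8 := by
  obtain ⟨h1, -, ⟨a₁, ha₁⟩, -⟩ := hf
  obtain ⟨w, hw⟩ := hg
  obtain ⟨r, hr⟩ := hWQ
  have hg0 : 1 ≤ gm x y := gm_pos x y hd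
  have hQW : Q / W = r := by
    rw [hr]
    exact Nat.mul_div_cancel_left r hW
  refine ⟨a₁ * w, (z.1.val : ℤ) - a₁ * w * (r : ℤ), ?_, ?_⟩
  · rw [hQW, sub_add_cancel]
    push_cast
    rw [ZMod.natCast_zmod_val]
  · have h2 : (((z.1.val : ℤ) - a₁ * w * (r : ℤ) : ℤ) : ℝ) = (z.1.val : ℝ) - Q * (α : ℝ) := by
      have h3 : (a₁ : ℝ) = (gm x y : ℝ) * (α : ℝ) := by
        have h4 : ((a₁ : ℚ) : ℝ) = (((gm x y : ℚ) * α : ℚ) : ℝ) := by rw [ha₁]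
        push_cast at h4
        exact h4
      have h5 : (Q : ℝ) = (gm x y : ℝ) * w * r := by
        have h6 : Q = gm x y * w * r := by
          conv_lhs => rw [hr, hw]
        rw [h6]
        push_cast
        ring
      push_cast
      rw [h3, h5]
      ring
    have h7 := cramer (z.1.val : ℝ) (z.2.val : ℝ) Q J ((nu x p : ℤ) : ℝ) ((nu y p : ℤ) : ℝ)
      ((nu x q : ℤ) : ℝ) ((nu y q : ℤ) : ℝ) α β ((b : ℝ) ^ 8) (h1 p).le (h1 q).le (nu_bd y gy p)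
      (nu_bd y gy q) (Nat.cast_nonneg _)
    rw [← h2] at h7
    have h8 : |((nu x p : ℤ) : ℝ) * ((nu y q : ℤ) : ℝ) - ((nu x q : ℤ) : ℝ) * ((nu y p : ℤ) : ℝ)| =
        (Δ : ℝ) := by
      rw [hΔ, Nat.cast_natAbs]
      push_cast
      rfl
    rw [h8] at h7
    have h9 : ((|(z.1.val : ℤ) - a₁ * w * (r : ℤ)| * (Δ : ℤ) : ℤ) : ℝ) ≤
        ((2 * J * (b : ℤ) ^ 8 : ℤ) : ℝ) := by
      push_cast
      push_cast at h7
      exact h7
    exact_mod_cast h9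

/-- the number of the frequencies in one class -/
theorem fibre (hCL2 : T_CL2) (hCNT : T_CNT) {s J Q : ℕ} [NeZero Q] (x y : Fin s → ℤ)
    (p q : Mon s) (Δ : ℕ) (px : Prm x)
    (hΔ : Δ = (nu x p * nu y q - nu x q * nu y p).natAbs) (h1Δ : 1 ≤ Δ) (hΔJ : Δ ≤ J)
    (F : Finset (ZMod Q × ZMod Q)) (al be : ZMod Q × ZMod Q → ℚ)
    (hF : ∀ z ∈ F, Frq Q J x y z (al z) (be z))
    (hcl : ∀ z ∈ F, ∀ z' ∈ F, ∃ t : ℤ, be z - be z' = t) :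
    (F.card : ℝ) * Δ ≤ 9 * (J : ℝ) ^ 2 := by
  rcases F.eq_empty_or_nonempty with rfl | ⟨z₀, hz₀⟩
  · simp
  obtain ⟨h1, h2, -, -⟩ := hF z₀ hz₀
  -- the integers
  have hs : ∀ z ∈ F, ∃ s₁ s₂ : ℤ, al z - al z₀ = s₁ ∧ be z - be z₀ = s₂ := by
    intro z hz
    obtain ⟨t, ht⟩ := hcl z hz z₀ hz₀
    obtain ⟨a, ha⟩ := hCL2 s x (al z - al z₀) px (by
      intro i l
      obtain ⟨m, hm⟩ := (hF z hz).2.1 i l
      obtain ⟨m', hm'⟩ := h2 i l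
      refine ⟨m - m' - t * y i * y l, ?_⟩
      push_cast
      rw [hm, hm', ← ht]
      ring)
    exact ⟨a, t, ha, ht⟩
  choose! s₁ s₂ hs₁ hs₂ using hs
  obtain ⟨hfin, hcnt⟩ := hCNT (nu x p) (nu y p) (nu x q) (nu y q) Δ J
    (Q * ((al z₀ : ℝ) * ((nu x p : ℤ) : ℝ) + (be z₀ : ℝ) * ((nu y p : ℤ) : ℝ)))
    (Q * ((al z₀ : ℝ) * ((nu x q : ℤ) : ℝ) + (be z₀ : ℝ) * ((nu y q : ℤ) : ℝ)))
    hΔ h1Δ hΔJ
  set T : Set (ℤ × ℤ) := {q' : ℤ × ℤ | |(q'.1 * (nu x p : ℤ) + q'.2 * (nu y p : ℤ) : ℝ) -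
      (Q * ((al z₀ : ℝ) * ((nu x p : ℤ) : ℝ) + (be z₀ : ℝ) * ((nu y p : ℤ) : ℝ)))| < J ∧
    |(q'.1 * (nu x q : ℤ) + q'.2 * (nu y q : ℤ) : ℝ) -
      (Q * ((al z₀ : ℝ) * ((nu x q : ℤ) : ℝ) + (be z₀ : ℝ) * ((nu y q : ℤ) : ℝ)))| < J} with hT
  set G : ZMod Q × ZMod Q → ℤ × ℤ := fun z =>
    ((z.1.val : ℤ) - Q * s₁ z, (z.2.val : ℤ) - Q * s₂ z) with hG
  have hmem : ∀ z ∈ F, G z ∈ T := by
    intro z hz
    have g1 := (hF z hz).1
    have e1 : (s₁ z : ℝ) = (al z : ℝ) - (al z₀ : ℝ) := by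
      have : ((s₁ z : ℚ) : ℝ) = ((al z - al z₀ : ℚ) : ℝ) := by rw [hs₁ z hz]
      push_cast at this
      exact this
    have e2 : (s₂ z : ℝ) = (be z : ℝ) - (be z₀ : ℝ) := by
      have : ((s₂ z : ℚ) : ℝ) = ((be z - be z₀ : ℚ) : ℝ) := by rw [hs₂ z hz]
      push_cast at this
      exact this
    have e3 : ∀ p' : Mon s, ((((z.1.val : ℤ) - Q * s₁ z : ℤ) : ℝ) * ((nu x p' : ℤ) : ℝ) +
        (((z.2.val : ℤ) - Q * s₂ z : ℤ) : ℝ) * ((nu y p' : ℤ) : ℝ)) -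
        (Q * ((al z₀ : ℝ) * ((nu x p' : ℤ) : ℝ) + (be z₀ : ℝ) * ((nu y p' : ℤ) : ℝ))) =
        (z.1.val : ℝ) * ((nu x p' : ℤ) : ℝ) + (z.2.val : ℝ) * ((nu y p' : ℤ) : ℝ) -
        Q * ((al z : ℝ) * ((nu x p' : ℤ) : ℝ) + (be z : ℝ) * ((nu y p' : ℤ) : ℝ)) := by
      intro p'
      push_cast
      rw [e1, e2]
      ring
    refine ⟨?_, ?_⟩
    · change |((((z.1.val : ℤ) - Q * s₁ z : ℤ) : ℝ) * ((nu x p : ℤ) : ℝ) +
        (((z.2.val : ℤ) - Q * s₂ z : ℤ) : ℝ) * ((nu y p : ℤ) : ℝ)) -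
        (Q * ((al z₀ : ℝ) * ((nu x p : ℤ) : ℝ) + (be z₀ : ℝ) * ((nu y p : ℤ) : ℝ)))| < J
      rw [e3 p]
      exact g1 p
    · change |((((z.1.val : ℤ) - Q * s₁ z : ℤ) : ℝ) * ((nu x q : ℤ) : ℝ) +
        (((z.2.val : ℤ) - Q * s₂ z : ℤ) : ℝ) * ((nu y q : ℤ) : ℝ)) -
        (Q * ((al z₀ : ℝ) * ((nu x q : ℤ) : ℝ) + (be z₀ : ℝ) * ((nu y q : ℤ) : ℝ)))| < J
      rw [e3 q]
      exact g1 q
  have hinj : Set.InjOn G (F : Set (ZMod Q × ZMod Q)) := by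
    intro z _ z' _ h
    have e : ∀ w : ZMod Q × ZMod Q, w = (((G w).1 : ZMod Q), ((G w).2 : ZMod Q)) := by
      intro w
      simp only [hG]
      push_cast
      rw [ZMod.natCast_zmod_val, ZMod.natCast_zmod_val, ZMod.natCast_self]
      simp
    rw [e z, e z', h]
  have hle : (F.card : ℝ) ≤ (T.ncard : ℝ) := by
    have h3 : (F : Set (ZMod Q × ZMod Q)).ncard ≤ T.ncard :=
      Set.ncard_le_ncard_of_injOn G (fun z hz => hmem z hz) hinj hfin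
    rw [Set.ncard_coe_finset] at h3
    exact_mod_cast h3
  exact (mul_le_mul_of_nonneg_right hle (Nat.cast_nonneg _)).trans hcnt

/-- **PXY.** -/
theorem pf_PXY (hSTR : T_STR) (hCLS : T_CLS) (hCL2 : T_CL2) (hCNT : T_CNT) : T_PXY := by
  intro s b c A J Q W _ x y p q Δ hs hb hA hcA hQ hW hWQ gx gy hd hΔ h1Δ hΔJ
  have hex : ∀ z ∈ zs Q J x y, ∃ α β : ℚ, Frq Q J x y z α β := fun z hz =>
    frq_ex hSTR hCLS x y hs hb hA hcA hQ gx gy hd z hz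
  choose! al be hab using hex
  refine ⟨?_, fun hg z hz => pxy_two x y p q Δ hW hWQ gy hd hΔ hg z _ _ (hab z hz)⟩
  have hg0 : 1 ≤ gm x y := gm_pos x y hd
  have : NeZero (gm x y) := ⟨by omega⟩
  have hgQ : (gm x y : ℚ) ≠ 0 := by
    have : gm x y ≠ 0 := by omega
    exact_mod_cast this
  -- the classes
  have hb2 : ∀ z ∈ zs Q J x y, ∃ a : ℤ, (gm x y : ℚ) * be z = a := fun z hz => (hab z hz).2.2.2
  choose! bb hbb using hb2
  have hcard : (zs Q J x y).card = ∑ t : ZMod (gm x y),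
      ((zs Q J x y).filter fun z => (bb z : ZMod (gm x y)) = t).card :=
    Finset.card_eq_sum_card_fiberwise (fun z _ => Finset.mem_univ _)
  have hfib : ∀ t : ZMod (gm x y),
      (((zs Q J x y).filter fun z => (bb z : ZMod (gm x y)) = t).card : ℝ) * Δ ≤
        9 * (J : ℝ) ^ 2 := by
    intro t
    refine fibre hCL2 hCNT x y p q Δ gx.prm hΔ h1Δ hΔJ _ al be
      (fun z hz => hab z (Finset.mem_filter.1 hz).1) ?_
    intro z hz z' hz'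
    obtain ⟨h1, h2⟩ := Finset.mem_filter.1 hz
    obtain ⟨h3, h4⟩ := Finset.mem_filter.1 hz'
    have h5 : ((bb z - bb z' : ℤ) : ZMod (gm x y)) = 0 := by
      push_cast
      rw [h2, h4, sub_self]
    obtain ⟨u, hu⟩ := (ZMod.intCast_zmod_eq_zero_iff_dvd _ (gm x y)).1 h5
    refine ⟨u, ?_⟩
    have h6 : (gm x y : ℚ) * (be z - be z') = (gm x y : ℚ) * u := by
      rw [mul_sub, hbb z h1, hbb z' h3]
      exact_mod_cast hu
    exact mul_left_cancel₀ hgQ h6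
  rw [hcard]
  push_cast
  rw [Finset.sum_mul]
  calc ∑ t : ZMod (gm x y), (((zs Q J x y).filter fun z => (bb z : ZMod (gm x y)) = t).card : ℝ) * Δ
      ≤ ∑ _t : ZMod (gm x y), 9 * (J : ℝ) ^ 2 := Finset.sum_le_sum fun t _ => hfib t
    _ = 9 * gm x y * (J : ℝ) ^ 2 := by
        rw [Finset.sum_const, Finset.card_univ, ZMod.card, nsmul_eq_mul]
        ring

end Pool.Agent.H75.RQ
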