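import Pool.Agent.H32.RQ.Targets

/-!
# Pairs of quadratic forms (`MP_63b6b1_nt`), row WFN: the density modulo `W`
-/

set_option autoImplicit false

open Finset Pool.Agent.H32.RQ

namespace Pool.Agent.H75.RQ

open Classical in
theorem am_one {s : ℕ} [NeZero 1] (F : Fin 2 → Mon s → ZMod 1) : 1 ≤ am 1 F := by
  unfold am
  rw [Nat.one_le_iff_ne_zero, Ne, Finset.card_eq_zero, ← Ne, ← Finset.nonempty_iff_ne_empty]
  refine ⟨0, ?_⟩
  rw [Finset.mem_filter]
  exact ⟨Finset.mem_univ _, ⟨0, Subsingleton.elim _ _⟩, fun i => Subsingleton.elim _ _⟩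

theorem wfn_core (hHEC : T_HEC) (hCRT : T_CRT) (s t : ℕ) (c : Fin 2 → Mon s → ℤ) (N : ℕ) :
    ∀ [NeZero N], (∀ p : ℕ, p.Prime → p ∣ N → p ^ (2 * t) ∣ N) →
      (∀ p : ℕ, p.Prime → p ∣ N → PR t p c) →
      N ^ (s - 2) ≤ am N (cm (ZMod N) c) * ∏ p ∈ N.primeFactors, p ^ (2 * t * (s - 2)) := by
  induction N using Nat.recOnPosPrimePosCoprime with
  | prime_pow p n hp hn =>
    intro hne h1 h2
    have hpn : p ∣ p ^ n := dvd_pow_self p hn.ne'
    have h3 : 2 * t ≤ n := (Nat.pow_dvd_pow_iff_le_right hp.one_lt).1 (h1 p hp hpn)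
    have h4 := hHEC s p t n c hp h3 (h2 p hp hpn)
    rw [Nat.primeFactors_prime_pow hn.ne' hp, Finset.prod_singleton]
    calc (p ^ n) ^ (s - 2) = p ^ ((n - 2 * t) * (s - 2)) * p ^ (2 * t * (s - 2)) := by
          rw [← pow_mul, ← pow_add, ← Nat.add_mul, Nat.sub_add_cancel h3]
      _ ≤ _ := Nat.mul_le_mul_right _ h4
  | zero =>
    intro hne
    exact absurd rfl hne.out
  | one =>
    intro hne h1 h2
    have := am_one (cm (ZMod 1) c)
    simpa using this
  | coprime a b ha hb hab iha ihb =>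
    intro hne h1 h2
    have : NeZero a := ⟨by omega⟩
    have : NeZero b := ⟨by omega⟩
    have ga := iha (fun p hp hpa => by
      have h3 := h1 p hp (hpa.mul_right b)
      have h4 : Nat.Coprime (p ^ (2 * t)) b :=
        Nat.Coprime.pow_left _ (Nat.Coprime.coprime_dvd_left hpa hab)
      exact h4.dvd_of_dvd_mul_right h3) (fun p hp hpa => h2 p hp (hpa.mul_right b))
    have gb := ihb (fun p hp hpb => by
      have h3 := h1 p hp (hpb.mul_left a)
      have h4 : Nat.Coprime (p ^ (2 * t)) a :=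
        Nat.Coprime.pow_left _ (Nat.Coprime.coprime_dvd_left hpb hab.symm)
      exact h4.dvd_of_dvd_mul_left h3) (fun p hp hpb => h2 p hp (hpb.mul_left a))
    rw [hCRT s a b c hab, hab.primeFactors_mul,
      Finset.prod_union hab.disjoint_primeFactors, Nat.mul_pow]
    calc a ^ (s - 2) * b ^ (s - 2) ≤ _ := Nat.mul_le_mul ga gb
      _ = _ := by ring

/-- **WFN.** -/
theorem pf_WFN (hHEC : T_HEC) (hCRT : T_CRT) : T_WFN := by
  intro s t w₀
  set e : ℕ := 2 * t * (s - 2) with he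
  set K : ℕ := ((w₀ + 1) ^ e) ^ (w₀ + 1) with hK
  have hK0 : 0 < K := by positivity
  refine ⟨1 / (2 * K), by positivity, ?_⟩
  intro W₀ W₁ _ _ _ c hco hp1 hp2 hp3 hW1
  have h1 := wfn_core hHEC hCRT s t c W₀ (fun p hp hpd => hp2 p hp (hp1 p hp hpd))
    (fun p hp hpd => hp3 p hp (hp1 p hp hpd))
  have h2 : ∏ p ∈ W₀.primeFactors, p ^ e ≤ K := by
    have hsub : W₀.primeFactors ⊆ Finset.range (w₀ + 1) := by
      intro p hp
      have hpp := Nat.prime_of_mem_primeFactors hp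
      have := hp1 p hpp (Nat.dvd_of_mem_primeFactors hp)
      rw [Finset.mem_range]
      omega
    have hcard : W₀.primeFactors.card ≤ w₀ + 1 := by
      have := Finset.card_le_card hsub
      rwa [Finset.card_range] at this
    calc ∏ p ∈ W₀.primeFactors, p ^ e ≤ ∏ _p ∈ W₀.primeFactors, (w₀ + 1) ^ e := by
          refine Finset.prod_le_prod' fun p hp => Nat.pow_le_pow_left ?_ _
          have := Finset.mem_range.1 (hsub hp)
          omega
      _ = ((w₀ + 1) ^ e) ^ W₀.primeFactors.card := by rw [Finset.prod_const]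
      _ ≤ K := Nat.pow_le_pow_right (by positivity) hcard
  rw [hCRT s W₀ W₁ c hco]
  have h3 : (W₀ * W₁) ^ (s - 2) ≤ 2 * K * (am W₀ (cm (ZMod W₀) c) * am W₁ (cm (ZMod W₁) c)) := by
    rw [Nat.mul_pow]
    calc W₀ ^ (s - 2) * W₁ ^ (s - 2)
        ≤ (am W₀ (cm (ZMod W₀) c) * K) * (2 * am W₁ (cm (ZMod W₁) c)) :=
          Nat.mul_le_mul (h1.trans (Nat.mul_le_mul_left _ h2)) hW1
      _ = _ := by ring
  have h4 : (((W₀ * W₁ : ℕ) : ℝ)) ^ (s - 2) ≤
      2 * K * ((am W₀ (cm (ZMod W₀) c) * am W₁ (cm (ZMod W₁) c) : ℕ) : ℝ) := by exact_mod_cast h3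
  have hKR : (0 : ℝ) < 2 * K := by positivity
  rw [div_mul_eq_mul_div, one_mul, div_le_iff₀ hKR]
  linarith

end Pool.Agent.H75.RQ
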